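import Mathlib

/-!
An ergodic system: the doubling map on the circle with a phase.
-/

set_option autoImplicit false

open MeasureTheory

namespace Pool.Agent.Lib.MP_a24ad1_pr

/-- The base space: the circle of length one. -/
abbrev Circ : Type := AddCircle (1 : ℝ)

/-- The doubling map. -/
def dbl (x : Circ) : Circ := (2 : ℕ) • x

lemma ergodic_dbl : Ergodic dbl (volume : Measure Circ) :=
  AddCircle.ergodic_nsmul (by norm_num)

instance : IsProbabilityMeasure (volume : Measure Circ) :=
  ⟨by simp [AddCircle.measure_univ]⟩

open Classical in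
/-- The driving function `s : Circ → [0, 1/2)`, with essential supremum `1/2`. -/
noncomputable def s (x : Circ) : ℝ := if x = 0 then 0 else (1 - ‖x‖) / 2

lemma s_nonneg (x : Circ) : 0 ≤ s x := by
  unfold s
  split_ifs
  · exact le_refl _
  · have := AddCircle.norm_le_half_period (1 : ℝ) (x := x) one_ne_zero
    simp only [abs_one] at this
    linarith

lemma s_lt (x : Circ) : s x < 1 / 2 := by
  unfold s
  split_ifs with h
  · norm_num
  · have := norm_pos_iff.mpr h
    linarith

lemma measurable_s : Measurable s := by
  unfold s
  exact Measurable.ite (measurableSet_singleton 0) measurable_const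
    ((measurable_const.sub measurable_norm).div_const 2)

lemma s_pos_measure (ε : ℝ) (hε : 0 < ε) :
    (volume : Measure Circ) {x | 1 / 2 - ε ≤ s x} ≠ 0 := by
  have hsub : Metric.ball (0 : Circ) (2 * ε) ∩ {0}ᶜ ⊆ {x | 1 / 2 - ε ≤ s x} := by
    intro x hx
    obtain ⟨h1, h2⟩ := hx
    have h3 : x ≠ 0 := by simpa using h2
    simp only [Metric.mem_ball, dist_zero_right] at h1
    show 1 / 2 - ε ≤ s x
    simp only [s, if_neg h3]
    linarith
  have hopen : IsOpen (Metric.ball (0 : Circ) (2 * ε) ∩ {0}ᶜ) :=
    Metric.isOpen_ball.inter isOpen_compl_singleton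
  have hne : (Metric.ball (0 : Circ) (2 * ε) ∩ {0}ᶜ).Nonempty := by
    have hpos : 0 < min ε (1 / 4) := lt_min hε (by norm_num)
    have hnorm : ‖((min ε (1 / 4) : ℝ) : Circ)‖ = min ε (1 / 4) := by
      have h := (AddCircle.norm_coe_eq_abs_iff (1 : ℝ) (x := min ε (1 / 4)) one_ne_zero).mpr (by
        rw [abs_of_pos hpos, abs_one]
        exact (min_le_right _ _).trans (by norm_num))
      rw [h, abs_of_pos hpos]
    refine ⟨((min ε (1 / 4) : ℝ) : Circ), ?_, ?_⟩
    · rw [Metric.mem_ball, dist_zero_right, hnorm]
      have := min_le_left ε (1 / 4)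
      linarith
    · intro h
      have h' : ((min ε (1 / 4) : ℝ) : Circ) = 0 := h
      rw [h', norm_zero] at hnorm
      linarith
  have := hopen.measure_pos (volume : Measure Circ) hne
  intro h0
  exact absurd (measure_mono_null hsub h0) this.ne'

/-- Running maximum of `s` along the orbit of the doubling map. -/
noncomputable def runmax : ℕ → Circ → ℝ
  | 0, _ => 0
  | n + 1, x => max (runmax n x) (s (dbl^[n] x))

lemma runmax_nonneg (n : ℕ) (x : Circ) : 0 ≤ runmax n x := by
  induction n with
  | zero => exact le_refl _
  | succ n ih => exact ih.trans (le_max_left _ _)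

lemma runmax_lt (n : ℕ) (x : Circ) : runmax n x < 1 / 2 := by
  induction n with
  | zero => show (0 : ℝ) < 1 / 2; norm_num
  | succ n ih => exact max_lt ih (s_lt _)

lemma measurable_dbl : Measurable dbl := ergodic_dbl.measurable

lemma measurable_runmax (n : ℕ) : Measurable (runmax n) := by
  induction n with
  | zero => exact measurable_const
  | succ n ih => exact ih.max (measurable_s.comp (measurable_dbl.iterate n))

lemma runmax_mono (x : Circ) : Monotone (fun n => runmax n x) :=
  monotone_nat_of_le_succ (fun _ => le_max_left _ _)

lemma le_runmax (n k : ℕ) (h : k < n) (x : Circ) : s (dbl^[k] x) ≤ runmax n x :=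
  (le_max_right (runmax k x) (s (dbl^[k] x))).trans (runmax_mono x h)

/-- By ergodicity, the running maximum gets close to `1/2` almost surely. -/
lemma measure_iUnion (ε : ℝ) (hε : 0 < ε) :
    (volume : Measure Circ) (⋃ n, {x | 1 / 2 - ε ≤ runmax n x}) = 1 := by
  set F : Set Circ := {x | ∀ k, s (dbl^[k] x) < 1 / 2 - ε} with hF
  have hFmeas : MeasurableSet F := by
    have : F = ⋂ k, {x | s (dbl^[k] x) < 1 / 2 - ε} := by
      ext x
      simp [hF]
    rw [this]
    exact MeasurableSet.iInter fun k =>
      measurableSet_lt (measurable_s.comp (measurable_dbl.iterate k)) measurable_const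
  have hFsub : F ⊆ dbl ⁻¹' F := by
    intro x hx k
    have := hx (k + 1)
    rwa [Function.iterate_succ_apply] at this
  have hdich := ergodic_dbl.ae_empty_or_univ_of_ae_le_preimage hFmeas.nullMeasurableSet
    (Filter.Eventually.of_forall hFsub)
  have hF0 : (volume : Measure Circ) F = 0 := by
    rcases hdich with h | h
    · rw [measure_congr h, measure_empty]
    · exfalso
      have h1 : (volume : Measure Circ) Fᶜ = 0 := by
        have := ae_eq_univ.mp h
        exact this
      refine s_pos_measure ε hε (measure_mono_null ?_ h1)
      intro x hx hxF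
      have h2 := hxF 0
      have h3 : 1 / 2 - ε ≤ s x := hx
      simp only [Function.iterate_zero, id_eq] at h2
      linarith
  have hcompl : (⋃ n, {x | 1 / 2 - ε ≤ runmax n x})ᶜ ⊆ F := by
    intro x hx k
    by_contra hcon
    apply hx
    rw [Set.mem_iUnion]
    exact ⟨k + 1, (not_lt.mp hcon).trans (le_runmax (k + 1) k (Nat.lt_succ_self k) x)⟩
  have hc0 := measure_mono_null hcompl hF0
  have hmeas : MeasurableSet (⋃ n, {x | 1 / 2 - ε ≤ runmax n x}) :=
    MeasurableSet.iUnion fun n => measurableSet_le measurable_const (measurable_runmax n)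
  exact (prob_compl_eq_zero_iff hmeas).mp hc0

lemma tendsto_measure (ε : ℝ) (hε : 0 < ε) :
    Filter.Tendsto (fun n => (volume : Measure Circ) {x | 1 / 2 - ε ≤ runmax n x})
      Filter.atTop (nhds 1) := by
  have h := tendsto_measure_iUnion_atTop (μ := (volume : Measure Circ))
    (s := fun n => {x | 1 / 2 - ε ≤ runmax n x})
    (fun i j hij x hx => le_trans (show 1 / 2 - ε ≤ runmax i x from hx) (runmax_mono x hij))
  rw [measure_iUnion ε hε] at h
  exact h

/-! ### The two-phase system -/

/-- The state space: a phase and a point of the circle. -/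
abbrev Om : Type := Bool × Circ

/-- Uniform measure on the phase. -/
noncomputable def nu : Measure Bool := (PMF.uniformOfFintype Bool).toMeasure

instance : IsProbabilityMeasure nu := by unfold nu; infer_instance

/-- The probability measure on `Om`. -/
noncomputable def mu : Measure Om := nu.prod (volume : Measure Circ)

instance : IsProbabilityMeasure mu := by unfold mu; infer_instance

/-- The shift on `Om`. -/
def theta (p : Om) : Om := (!p.1, if p.1 then dbl p.2 else p.2)

lemma nu_singleton (b : Bool) : nu {b} = 1 / 2 := by
  unfold nu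
  rw [PMF.toMeasure_apply_singleton _ _ (measurableSet_singleton _)]
  simp

lemma mp_not : MeasurePreserving (fun b : Bool => !b) nu nu := by
  refine ⟨measurable_of_finite _, ?_⟩
  refine Measure.ext_of_singleton ?_
  intro b
  rw [Measure.map_apply (measurable_of_finite _) (measurableSet_singleton _)]
  have : (fun b : Bool => !b) ⁻¹' {b} = {!b} := by
    ext c
    cases b <;> cases c <;> simp
  rw [this, nu_singleton, nu_singleton]

lemma measurable_theta : Measurable theta := by
  refine Measurable.prodMk ?_ ?_
  · exact (measurable_of_finite (fun b : Bool => !b)).comp measurable_fst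
  · refine Measurable.ite ?_ (measurable_dbl.comp measurable_snd) measurable_snd
    exact measurable_fst (measurableSet_singleton true)

lemma mp_theta : MeasurePreserving theta mu mu := by
  have hm : Measurable (Function.uncurry (fun (b : Bool) (x : Circ) =>
      if b then dbl x else x)) := by
    have := (measurable_snd.comp measurable_theta)
    exact this
  exact MeasurePreserving.skew_product (f := fun b : Bool => !b) mp_not
    (g := fun (b : Bool) (x : Circ) => if b then dbl x else x) hm
    (Filter.Eventually.of_forall (fun b => by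
      cases b
      · simp only [Bool.false_eq_true, if_false]
        exact Measure.map_id
      · simp only [if_true]
        exact ergodic_dbl.map_eq))

lemma ergodic_theta : Ergodic theta mu := by
  refine ⟨mp_theta, ⟨?_⟩⟩
  intro A hA hinv
  -- the two sections coincide
  have h1 : ∀ x, (false, x) ∈ A ↔ (true, x) ∈ A := by
    intro x
    have : (false, x) ∈ theta ⁻¹' A ↔ (false, x) ∈ A := by rw [hinv]
    rw [← this]
    rfl
  have h2 : ∀ x, (true, x) ∈ A ↔ (false, dbl x) ∈ A := by
    intro x
    have : (true, x) ∈ theta ⁻¹' A ↔ (true, x) ∈ A := by rw [hinv]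
    rw [← this]
    rfl
  set B : Set Circ := {x | (false, x) ∈ A} with hB
  have hBm : MeasurableSet B := measurable_prodMk_left hA
  have hBinv : dbl ⁻¹' B = B := by
    ext x
    show (false, dbl x) ∈ A ↔ (false, x) ∈ A
    rw [h1 x, h2 x]
  have hAB : A = Prod.snd ⁻¹' B := by
    ext ⟨b, x⟩
    cases b
    · rfl
    · exact (h1 x).symm
  have hBc := ergodic_dbl.aeconst_set hBm hBinv
  rw [hAB]
  have hq : Measure.QuasiMeasurePreserving (Prod.snd : Om → Circ) mu volume :=
    Measure.quasiMeasurePreserving_snd
  exact hBc.comp_tendsto hq.tendsto_ae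

/-- Interarrival times. -/
noncomputable def tt (p : Om) : ℝ := if p.1 then 2 - s p.2 else s p.2

/-- Service times. -/
noncomputable def ss (p : Om) : ℝ := if p.1 then 2 else 1

lemma measurable_tt : Measurable tt := by
  refine Measurable.ite (measurable_fst (measurableSet_singleton true)) ?_ ?_
  · exact measurable_const.sub (measurable_s.comp measurable_snd)
  · exact measurable_s.comp measurable_snd

lemma measurable_ss : Measurable ss :=
  Measurable.ite (measurable_fst (measurableSet_singleton true)) measurable_const measurable_const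

lemma tt_nonneg (p : Om) : 0 ≤ tt p := by
  unfold tt
  have h1 := s_nonneg p.2
  have h2 := s_lt p.2
  split_ifs <;> linarith

lemma tt_le (p : Om) : tt p ≤ 2 := by
  unfold tt
  have h1 := s_nonneg p.2
  have h2 := s_lt p.2
  split_ifs <;> linarith

lemma ss_nonneg (p : Om) : 0 ≤ ss p := by
  unfold ss
  split_ifs <;> norm_num

lemma ss_le (p : Om) : ss p ≤ 2 := by
  unfold ss
  split_ifs <;> norm_num

lemma integrable_tt : Integrable tt mu :=
  Integrable.of_bound measurable_tt.aestronglyMeasurable 2
    (Filter.Eventually.of_forall fun p => by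
      rw [Real.norm_of_nonneg (tt_nonneg p)]
      exact tt_le p)

lemma integrable_ss : Integrable ss mu :=
  Integrable.of_bound measurable_ss.aestronglyMeasurable 2
    (Filter.Eventually.of_forall fun p => by
      rw [Real.norm_of_nonneg (ss_nonneg p)]
      exact ss_le p)

/-- Integral of a function on `Om` as the average over the two phases. -/
lemma integral_mu (f : Om → ℝ) (hf : Integrable f mu) :
    ∫ p, f p ∂mu = (1 / 2) * (∫ x, f (false, x)) + (1 / 2) * (∫ x, f (true, x)) := by
  unfold mu at hf ⊢
  rw [integral_prod _ hf, integral_fintype (Integrable.of_finite)]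
  simp only [Fintype.sum_bool, measureReal_def, nu_singleton]
  norm_num
  ring

lemma stability : ∫ p, ss p ∂mu < (((1 : ℕ) : ℝ) + 1) * ∫ p, tt p ∂mu := by
  rw [integral_mu _ integrable_ss, integral_mu _ integrable_tt]
  have hs : Integrable s (volume : Measure Circ) :=
    Integrable.of_bound measurable_s.aestronglyMeasurable 2
      (Filter.Eventually.of_forall fun x => by
        rw [Real.norm_of_nonneg (s_nonneg x)]
        have := s_lt x
        linarith)
  have h1 : ∫ x : Circ, ss (false, x) = 1 := by simp [ss]
  have h2 : ∫ x : Circ, ss (true, x) = 2 := by simp [ss]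
  have h3 : ∫ x : Circ, tt (false, x) = ∫ x, s x := by simp [tt]
  have h4 : ∫ x : Circ, tt (true, x) = 2 - ∫ x, s x := by
    have : (fun x : Circ => tt (true, x)) = fun x => 2 - s x := by
      funext x
      simp [tt]
    rw [this, integral_sub (integrable_const _) hs]
    simp
  rw [h1, h2, h3, h4]
  push_cast
  linarith

end Pool.Agent.Lib.MP_a24ad1_pr
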